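import Pool.Agent.W208.TL.Stm
import Pool.Agent.Helper112.Lp.MertensLog

/-!
# Part TL-TAIL: large smooth parts are rare
-/

set_option autoImplicit false

namespace Pool.Agent.W975.TL

open Finset
open Pool.Agent.W208.TL

theorem sm_pos (w y n : ℕ) : 1 ≤ sm w y n := by
  unfold sm
  refine Nat.one_le_iff_ne_zero.2 (Finset.prod_ne_zero_iff.2 fun l hl => ?_)
  exact pow_ne_zero _ (Finset.mem_filter.1 hl).2.ne_zero

theorem log_sm (w y n : ℕ) :
    Real.log (sm w y n) = ∑ l ∈ PP w y, (n.factorization l : ℝ) * Real.log l := by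
  unfold sm
  push_cast
  rw [Real.log_prod]
  · refine Finset.sum_congr rfl fun l _ => ?_
    rw [Real.log_pow]
  · intro l hl
    have := (Finset.mem_filter.1 hl).2.ne_zero
    positivity

theorem fac_sum (X l : ℕ) : ∑ n ∈ Ioc 0 X, n.factorization l = X.factorial.factorization l := by
  induction X with
  | zero => simp
  | succ X ih =>
    rw [Finset.sum_Ioc_succ_top (Nat.zero_le X), ih, Nat.factorial_succ,
      Nat.factorization_mul (Nat.succ_ne_zero X) (Nat.factorial_ne_zero X), Finsupp.add_apply,
      add_comm]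

theorem fac_le (X l : ℕ) (hl : l.Prime) : (X.factorial.factorization l : ℝ) ≤ 2 * X / l := by
  haveI : Fact l.Prime := ⟨hl⟩
  have h1 := sub_one_mul_padicValNat_factorial (p := l) X
  rw [← Nat.factorization_def _ hl] at h1
  have h2 : (l - 1) * X.factorial.factorization l ≤ X := by rw [h1]; exact Nat.sub_le _ _
  have hl2 := hl.two_le
  have h3 : l * X.factorial.factorization l ≤ 2 * X := by
    have h4 : l ≤ 2 * (l - 1) := by omega
    calc l * X.factorial.factorization l ≤ 2 * (l - 1) * X.factorial.factorization l :=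
          Nat.mul_le_mul_right _ h4
      _ = 2 * ((l - 1) * X.factorial.factorization l) := by ring
      _ ≤ 2 * X := Nat.mul_le_mul_left _ h2
  rw [le_div_iff₀ (by positivity)]
  have : ((l * X.factorial.factorization l : ℕ) : ℝ) ≤ ((2 * X : ℕ) : ℝ) := by exact_mod_cast h3
  push_cast at this
  linarith

theorem tail : TAIL := by
  obtain ⟨C, hC, hM⟩ := Pool.Agent.Helper112.LP.mertens_log
  have hl2 : 0 < Real.log 2 := Real.log_pos (by norm_num)
  refine ⟨2 * (1 + C / Real.log 2), by positivity, fun X y Z hy hZ => ?_⟩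
  have hlogZ : 0 < Real.log Z := Real.log_pos (by exact_mod_cast (by omega : 1 < Z))
  have hlogy : Real.log 2 ≤ Real.log y := Real.log_le_log (by norm_num) (by exact_mod_cast hy)
  have hset : PP 0 y = (Icc 1 y).filter Nat.Prime := by
    unfold PP
    congr 1
  have h1 : ∑ n ∈ Ioc 0 X, Real.log (sm 0 y n) ≤ 2 * X * (Real.log y + C) := by
    calc ∑ n ∈ Ioc 0 X, Real.log (sm 0 y n)
        = ∑ l ∈ PP 0 y, (X.factorial.factorization l : ℝ) * Real.log l := by
          simp only [log_sm]
          rw [Finset.sum_comm]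
          refine Finset.sum_congr rfl fun l _ => ?_
          rw [← Finset.sum_mul, ← fac_sum]
          push_cast
          rfl
      _ ≤ ∑ l ∈ PP 0 y, (2 * X / l) * Real.log l := by
          refine Finset.sum_le_sum fun l hl => ?_
          have hp := (Finset.mem_filter.1 hl).2
          exact mul_le_mul_of_nonneg_right (fac_le X l hp)
            (Real.log_nonneg (by exact_mod_cast hp.one_lt.le))
      _ = 2 * X * ∑ l ∈ PP 0 y, Real.log l / l := by
          rw [Finset.mul_sum]
          refine Finset.sum_congr rfl fun l _ => ?_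
          ring
      _ ≤ 2 * X * (Real.log y + C) := by
          refine mul_le_mul_of_nonneg_left ?_ (by positivity)
          have := (abs_le.1 (hM y (by omega))).2
          rw [hset]
          linarith
  have h2 : (((Ioc 0 X).filter (fun n => Z < sm 0 y n)).card : ℝ) * Real.log Z ≤
      ∑ n ∈ Ioc 0 X, Real.log (sm 0 y n) := by
    rw [← nsmul_eq_mul, ← Finset.sum_const]
    calc ∑ _n ∈ (Ioc 0 X).filter (fun n => Z < sm 0 y n), Real.log Z
        ≤ ∑ n ∈ (Ioc 0 X).filter (fun n => Z < sm 0 y n), Real.log (sm 0 y n) := by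
          refine Finset.sum_le_sum fun n hn => ?_
          refine Real.log_le_log (by positivity) ?_
          exact_mod_cast (Finset.mem_filter.1 hn).2.le
      _ ≤ ∑ n ∈ Ioc 0 X, Real.log (sm 0 y n) :=
          Finset.sum_le_sum_of_subset_of_nonneg (Finset.filter_subset _ _) fun n _ _ =>
            Real.log_nonneg (by exact_mod_cast sm_pos 0 y n)
  have h3 : Real.log y + C ≤ (1 + C / Real.log 2) * Real.log y := by
    have : C ≤ C / Real.log 2 * Real.log y := by
      rw [div_mul_eq_mul_div, le_div_iff₀ hl2]
      exact mul_le_mul_of_nonneg_left hlogy hC.le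
    linarith
  rw [div_mul_eq_mul_div, le_div_iff₀ hlogZ]
  refine h2.trans (h1.trans ?_)
  calc 2 * (X : ℝ) * (Real.log y + C) ≤ 2 * X * ((1 + C / Real.log 2) * Real.log y) :=
        mul_le_mul_of_nonneg_left h3 (by positivity)
    _ = 2 * (1 + C / Real.log 2) * Real.log y * X := by ring

end Pool.Agent.W975.TL
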