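import Pool.Agent.W188.QS.Stm

/-!
# QS-KE: two bounds for an oscillatory Gaussian integral
-/

set_option maxHeartbeats 400000

namespace Pool.Agent.W975.QSKe

open Complex MeasureTheory Set Filter Topology
open Pool.Agent.W188.QS

/-- the basic Gaussian majorant -/
noncomputable def G1 (D y : ℝ) : ℝ := Real.exp (y / 2 - D ^ 2 * y ^ 2 / 4)

theorem G1_eq (D y : ℝ) (hD : 0 < D) : G1 D y = Real.exp (1 / (4 * D ^ 2)) *
    Real.exp (-(D ^ 2 / 4) * (y - 1 / D ^ 2) ^ 2) := by
  unfold G1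
  rw [← Real.exp_add]
  congr 1
  field_simp
  ring

theorem G1_int (D : ℝ) (hD : 0 < D) : Integrable (G1 D) := by
  have h : Integrable (fun y : ℝ => Real.exp (-(D ^ 2 / 4) * y ^ 2)) :=
    integrable_exp_neg_mul_sq (by positivity)
  have h2 := (h.comp_sub_right (1 / D ^ 2)).const_mul (Real.exp (1 / (4 * D ^ 2)))
  exact h2.congr (Eventually.of_forall fun y => (G1_eq D y hD).symm)

theorem G1_val (D : ℝ) (hD : 1 ≤ D) : ∫ y : ℝ, G1 D y ≤ 5 / D := by
  have hD0 : 0 < D := by linarith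
  have h1 : ∫ y : ℝ, G1 D y = Real.exp (1 / (4 * D ^ 2)) * √(Real.pi / (D ^ 2 / 4)) := by
    rw [← integral_gaussian (D ^ 2 / 4),
      ← integral_sub_right_eq_self (fun y : ℝ => Real.exp (-(D ^ 2 / 4) * y ^ 2)) (1 / D ^ 2),
      ← integral_const_mul]
    exact integral_congr_ae (Eventually.of_forall fun y => G1_eq D y hD0)
  have h2 : √(Real.pi / (D ^ 2 / 4)) = 2 * √Real.pi / D := by
    have e : Real.pi / (D ^ 2 / 4) = (2 / D) ^ 2 * Real.pi := by
      field_simp
      norm_num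
    rw [e, Real.sqrt_mul (by positivity), Real.sqrt_sq (by positivity)]
    ring
  rw [h1, h2]
  have h3 : Real.exp (1 / (4 * D ^ 2)) ≤ Real.exp (1 / 4) := by
    apply Real.exp_le_exp.2
    apply one_div_le_one_div_of_le (by norm_num)
    nlinarith
  have h4 : Real.exp (1 / 4) * (2 * √Real.pi) ≤ 5 := by
    have h5 : (Real.exp (1 / 4) * (2 * √Real.pi)) ^ 2 ≤ 5 ^ 2 := by
      have e1 : (Real.exp (1 / 4) * (2 * √Real.pi)) ^ 2 = 4 * Real.pi * Real.exp (1 / 2) := by
        rw [mul_pow, mul_pow, Real.sq_sqrt Real.pi_pos.le, ← Real.exp_nat_mul]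
        norm_num
        ring
      rw [e1]
      have h6 : Real.exp (1 / 2) ≤ 1.65 := by
        have h7 : (Real.exp (1 / 2)) ^ 2 ≤ 1.65 ^ 2 := by
          rw [← Real.exp_nat_mul]
          norm_num
          have := Real.exp_one_lt_d9
          linarith
        exact le_of_sq_le_sq h7 (by norm_num)
      have h8 : Real.pi ≤ 3.15 := Real.pi_lt_d2.le
      have h9 : 0 < Real.exp (1 / 2) := Real.exp_pos _
      nlinarith [Real.pi_pos]
    exact le_of_sq_le_sq h5 (by norm_num)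
  calc Real.exp (1 / (4 * D ^ 2)) * (2 * √Real.pi / D)
      ≤ Real.exp (1 / 4) * (2 * √Real.pi / D) :=
        mul_le_mul_of_nonneg_right h3 (by positivity)
    _ = Real.exp (1 / 4) * (2 * √Real.pi) / D := by ring
    _ ≤ 5 / D := div_le_div_of_nonneg_right h4 hD0.le

/-- the second Gaussian majorant -/
noncomputable def G2 (D y : ℝ) : ℝ := Real.exp (-(D ^ 2 / 8) * y ^ 2)

theorem G2_int (D : ℝ) (hD : 0 < D) : Integrable (G2 D) :=
  integrable_exp_neg_mul_sq (by positivity)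

theorem G2_val (D : ℝ) (hD : 1 ≤ D) : ∫ y : ℝ, G2 D y ≤ 6 := by
  have hD0 : 0 < D := by linarith
  have h1 : ∫ y : ℝ, G2 D y = √(Real.pi / (D ^ 2 / 8)) := integral_gaussian (D ^ 2 / 8)
  rw [h1]
  have h2 : Real.pi / (D ^ 2 / 8) ≤ 6 ^ 2 := by
    rw [div_le_iff₀ (by positivity)]
    have h8 : Real.pi ≤ 3.15 := Real.pi_lt_d2.le
    nlinarith
  exact (Real.sqrt_le_sqrt h2).trans (by rw [Real.sqrt_sq (by norm_num)])

theorem G1_le (D y : ℝ) (hD : 1 ≤ D) (hy : 6 ≤ |y|) : G1 D y ≤ Real.exp (-|y|) := by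
  unfold G1
  apply Real.exp_le_exp.2
  have h1 : y ≤ |y| := le_abs_self y
  have h2 : y ^ 2 = |y| ^ 2 := (sq_abs y).symm
  have h3 : |y| ^ 2 ≤ D ^ 2 * |y| ^ 2 := by
    have : 1 ≤ D ^ 2 := by nlinarith
    nlinarith [sq_nonneg |y|]
  rw [h2]
  nlinarith

theorem G1_top (D : ℝ) (hD : 1 ≤ D) (l : Filter ℝ) (hl : Tendsto (fun y : ℝ => |y|) l atTop) :
    Tendsto (G1 D) l (𝓝 0) := by
  refine squeeze_zero' (g := fun y => Real.exp (-|y|)) ?_ ?_ ?_
  · exact Eventually.of_forall fun y => (Real.exp_pos _).le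
  · filter_upwards [hl.eventually_ge_atTop 6] with y hy using G1_le D y hD hy
  · exact Real.tendsto_exp_neg_atTop_nhds_zero.comp hl

/-- moving the line of integration of an entire function -/
theorem shift (f : ℂ → ℂ) (hf : Differentiable ℂ f) (c : ℝ) (g : ℝ → ℝ) (hg : Integrable g)
    (ht : Tendsto g atTop (𝓝 0)) (hb : Tendsto g atBot (𝓝 0))
    (h : ∀ y t : ℝ, t ∈ uIcc 0 c → ‖f (y + t * I)‖ ≤ g y) :
    ∫ y : ℝ, f y = ∫ y : ℝ, f (y + c * I) := by
  have hcont : ∀ t : ℝ, Continuous fun y : ℝ => f (y + t * I) := by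
    intro t
    exact hf.continuous.comp (by fun_prop)
  have hint : ∀ t : ℝ, t ∈ uIcc 0 c → Integrable fun y : ℝ => f (y + t * I) := by
    intro t ht'
    exact Integrable.mono' hg (hcont t).aestronglyMeasurable
      (Eventually.of_forall fun y => h y t ht')
  have h0 := hint 0 left_mem_uIcc
  have hc := hint c right_mem_uIcc
  have l0 : Tendsto (fun R : ℝ => ∫ y in (-R)..R, f (y + (0 : ℝ) * I)) atTop
      (𝓝 (∫ y : ℝ, f (y + (0 : ℝ) * I))) :=
    intervalIntegral_tendsto_integral h0 tendsto_neg_atTop_atBot tendsto_id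
  have lc : Tendsto (fun R : ℝ => ∫ y in (-R)..R, f (y + c * I)) atTop
      (𝓝 (∫ y : ℝ, f (y + c * I))) :=
    intervalIntegral_tendsto_integral hc tendsto_neg_atTop_atBot tendsto_id
  have lv : Tendsto (fun R : ℝ => I • ∫ t in (0 : ℝ)..c, f (R + t * I)) atTop (𝓝 0) := by
    refine squeeze_zero_norm' (a := fun R => g R * |c - 0|) ?_ ?_
    · refine Eventually.of_forall fun R => ?_
      rw [norm_smul, norm_I, one_mul]
      refine intervalIntegral.norm_integral_le_of_norm_le_const ?_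
      intro t ht'
      exact h R t (uIoc_subset_uIcc ht')
    · simpa using ht.mul_const |c - 0|
  have lw : Tendsto (fun R : ℝ => I • ∫ t in (0 : ℝ)..c, f ((-R : ℝ) + t * I)) atTop
      (𝓝 0) := by
    refine squeeze_zero_norm' (a := fun R => g (-R) * |c - 0|) ?_ ?_
    · refine Eventually.of_forall fun R => ?_
      rw [norm_smul, norm_I, one_mul]
      refine intervalIntegral.norm_integral_le_of_norm_le_const ?_
      intro t ht'
      exact h (-R) t (uIoc_subset_uIcc ht')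
    · simpa using (hb.comp tendsto_neg_atTop_atBot).mul_const |c - 0|
  have hrect : ∀ R : ℝ, (∫ y in (-R)..R, f (y + (0 : ℝ) * I)) - (∫ y in (-R)..R, f (y + c * I)) +
      I • (∫ t in (0 : ℝ)..c, f (R + t * I)) - I • (∫ t in (0 : ℝ)..c, f ((-R : ℝ) + t * I)) =
      0 := by
    intro R
    have := Complex.integral_boundary_rect_eq_zero_of_differentiableOn f ((-R : ℝ) : ℂ)
      (R + c * I) hf.differentiableOn
    simpa using this
  have ltot := ((l0.sub lc).add lv).sub lw
  have l2 : Tendsto (fun _ : ℝ => (0 : ℂ)) atTop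
      (𝓝 ((∫ y : ℝ, f (y + (0 : ℝ) * I)) - (∫ y : ℝ, f (y + c * I)) + 0 - 0)) :=
    ltot.congr hrect
  have l3 := tendsto_nhds_unique l2 tendsto_const_nhds
  have l4 : ∫ y : ℝ, f (y + (0 : ℝ) * I) = ∫ y : ℝ, f y := by simp
  rw [l4] at l3
  have l5 : (∫ y : ℝ, f y) - (∫ y : ℝ, f (y + c * I)) = 0 := by simpa using l3
  exact sub_eq_zero.1 l5

/-- the entire integrand -/
noncomputable def ff (T D : ℝ) (n : ℕ) (σ ε : ℝ) (z : ℂ) : ℂ :=
  cexp (-((ε : ℂ) + (σ : ℂ) * 2 * Real.pi * n * I) * cexp z) *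
    cexp ((1 / 2 + (T : ℂ) * I) * z - (D : ℂ) ^ 2 * z ^ 2 / 4)

theorem ff_diff (T D : ℝ) (n : ℕ) (σ ε : ℝ) : Differentiable ℂ (ff T D n σ ε) := by
  unfold ff
  fun_prop

theorem Ke_eq (T D : ℝ) (n : ℕ) (σ ε : ℝ) : Ke T D n σ ε = ∫ y : ℝ, ff T D n σ ε y := by
  unfold Ke ff
  simp only [Complex.ofReal_exp]

theorem ff_norm (T D : ℝ) (n : ℕ) (σ ε y h : ℝ) (hσ : σ = 1 ∨ σ = -1) :
    ‖ff T D n σ ε (y + ((-σ * h : ℝ) : ℂ) * I)‖ =
      Real.exp (-(Real.exp y * (ε * Real.cos h + 2 * Real.pi * n * Real.sin h))) *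
      Real.exp (y / 2 + σ * T * h - D ^ 2 * (y ^ 2 - h ^ 2) / 4) := by
  unfold ff
  rw [norm_mul, Complex.norm_exp, Complex.norm_exp]
  have hs2 : σ ^ 2 = 1 := by rcases hσ with h | h <;> rw [h] <;> norm_num
  congr 2
  · have e1 : (cexp (y + ((-σ * h : ℝ) : ℂ) * I)).re = Real.exp y * Real.cos (-σ * h) := by
      rw [Complex.exp_re]
      simp
    have e2 : (cexp (y + ((-σ * h : ℝ) : ℂ) * I)).im = Real.exp y * Real.sin (-σ * h) := by
      rw [Complex.exp_im]
      simp
    have e3 : Real.cos (-σ * h) = Real.cos h := by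
      rcases hσ with h | h <;> rw [h] <;> simp
    have e4 : Real.sin (-σ * h) = -σ * Real.sin h := by
      rcases hσ with h | h <;> rw [h] <;> simp
    rw [neg_mul, Complex.neg_re, Complex.mul_re, e1, e2, e3, e4]
    have e5 : ((ε : ℂ) + (σ : ℂ) * 2 * Real.pi * n * I).re = ε := by simp
    have e6 : ((ε : ℂ) + (σ : ℂ) * 2 * Real.pi * n * I).im = σ * 2 * Real.pi * n := by simp
    rw [e5, e6]
    linear_combination (-(2 * Real.pi * n * Real.exp y * Real.sin h)) * hs2
  · have e7 : (1 / 2 + (T : ℂ) * I) * (y + ((-σ * h : ℝ) : ℂ) * I) -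
        (D : ℂ) ^ 2 * (y + ((-σ * h : ℝ) : ℂ) * I) ^ 2 / 4 =
        ((y / 2 + σ * T * h - D ^ 2 * (y ^ 2 - h ^ 2) / 4 : ℝ) : ℂ) +
        ((T * y - σ * h / 2 + D ^ 2 * σ * y * h / 2 : ℝ) : ℂ) * I := by
      have hsc : (σ : ℂ) ^ 2 = 1 := by exact_mod_cast hs2
      push_cast
      linear_combination (-(T : ℂ) * σ * h - (D : ℂ) ^ 2 * σ ^ 2 * h ^ 2 / 4) * Complex.I_sq +
        ((D : ℂ) ^ 2 * h ^ 2 / 4) * hsc
    rw [e7, Complex.add_re, Complex.ofReal_re, Complex.re_ofReal_mul, Complex.I_re]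
    ring

theorem part1 (T D ε σ : ℝ) (hD : 1 ≤ D) (hε : 0 < ε) (n : ℕ) : ‖Ke T D n σ ε‖ ≤ 5 / D := by
  refine le_trans ?_ (G1_val D hD)
  unfold Ke
  refine norm_integral_le_of_norm_le (G1_int D (by linarith)) (Eventually.of_forall fun y => ?_)
  rw [norm_mul, Complex.norm_exp, Complex.norm_exp]
  have e1 : (-((ε : ℂ) + (σ : ℂ) * 2 * Real.pi * n * I) * (Real.exp y : ℂ)).re =
      -(ε * Real.exp y) := by
    rw [Complex.re_mul_ofReal]
    simp
  have e2 : ((1 / 2 + (T : ℂ) * I) * y - (D : ℂ) ^ 2 * (y : ℂ) ^ 2 / 4).re =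
      y / 2 - D ^ 2 * y ^ 2 / 4 := by
    have e3 : (1 / 2 + (T : ℂ) * I) * y - (D : ℂ) ^ 2 * (y : ℂ) ^ 2 / 4 =
        ((y / 2 - D ^ 2 * y ^ 2 / 4 : ℝ) : ℂ) + ((T * y : ℝ) : ℂ) * I := by
      push_cast
      ring
    rw [e3, Complex.add_re, Complex.ofReal_re, Complex.re_ofReal_mul, Complex.I_re]
    ring
  rw [e1, e2]
  have h1 : Real.exp (-(ε * Real.exp y)) ≤ 1 := by
    rw [← Real.exp_zero]
    apply Real.exp_le_exp.2
    have : 0 < ε * Real.exp y := by positivity
    linarith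
  unfold G1
  exact mul_le_of_le_one_left (Real.exp_pos _).le h1

theorem part2 (T D ε σ : ℝ) (hT : Real.exp 200 ≤ T) (hD : Real.log T ≤ D)
    (hB : 8 * D * √(Real.log T) ≤ T) (hε : 0 < ε) (hσ : σ = 1 ∨ σ = -1) (n : ℕ)
    (hn : 2 * T ≤ n) : ‖Ke T D n σ ε‖ ≤ T ^ (-(12 : ℝ)) := by
  have hT0 : 0 < T := lt_of_lt_of_le (Real.exp_pos _) hT
  obtain ⟨L, hL⟩ : ∃ L, L = Real.log T := ⟨_, rfl⟩
  rw [← hL] at hD hB
  have hTL : T = Real.exp L := by rw [hL, Real.exp_log hT0]
  have hL200 : 200 ≤ L := by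
    rw [hL]
    exact (Real.le_log_iff_exp_le hT0).2 hT
  have hD1 : 1 ≤ D := by linarith
  have hD0 : 0 < D := by linarith
  have hL0 : 0 < L := by linarith
  obtain ⟨η, hη⟩ : ∃ η, η = 8 * L / T := ⟨_, rfl⟩
  have hη0 : 0 < η := by rw [hη]; positivity
  have hTη : T * η = 8 * L := by rw [hη]; field_simp
  have hη1 : η ≤ 1 := by
    rw [hη, div_le_one hT0, hTL]
    have := Real.quadratic_le_exp_of_nonneg hL0.le
    nlinarith
  have hsq : 64 * D ^ 2 * L ≤ T ^ 2 := by
    have h1 : (8 * D * √L) ^ 2 ≤ T ^ 2 := by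
      apply pow_le_pow_left₀ (by positivity) hB
    have h2 : (8 * D * √L) ^ 2 = 64 * D ^ 2 * L := by
      rw [mul_pow, Real.sq_sqrt hL0.le]
      ring
    rw [← h2]
    exact h1
  have hDη : D ^ 2 * η ^ 2 / 4 ≤ L / 4 := by
    have e1 : D ^ 2 * η ^ 2 / 4 = (64 * D ^ 2 * L) / T ^ 2 * (L / 4) := by
      rw [hη]
      field_simp
      norm_num
    rw [e1]
    have h2 : (64 * D ^ 2 * L) / T ^ 2 ≤ 1 := (div_le_one (by positivity)).2 hsq
    exact mul_le_of_le_one_left (by positivity) h2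
  have hpi := Real.pi_pos
  have hpi3 := Real.pi_gt_three
  -- the shift
  have hshift : ∫ y : ℝ, ff T D n σ ε y =
      ∫ y : ℝ, ff T D n σ ε (y + ((-σ * η : ℝ) : ℂ) * I) := by
    refine shift (ff T D n σ ε) (ff_diff T D n σ ε) (-σ * η)
      (fun y => Real.exp (T * η + D ^ 2 * η ^ 2 / 4) * G1 D y)
      ((G1_int D hD0).const_mul _) ?_ ?_ ?_
    · simpa using (G1_top D hD1 atTop tendsto_abs_atTop_atTop).const_mul
        (Real.exp (T * η + D ^ 2 * η ^ 2 / 4))
    · simpa using (G1_top D hD1 atBot tendsto_abs_atBot_atTop).const_mul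
        (Real.exp (T * η + D ^ 2 * η ^ 2 / 4))
    · intro y t ht
      -- write `t = -σ h`
      have hth : ∃ h, t = -σ * h ∧ 0 ≤ h ∧ h ≤ η := by
        rcases hσ with h | h
        · refine ⟨-t, by rw [h]; ring, ?_, ?_⟩
          · rw [h, uIcc_of_ge (by linarith)] at ht
            linarith [ht.2]
          · rw [h, uIcc_of_ge (by linarith)] at ht
            linarith [ht.1]
        · refine ⟨t, by rw [h]; ring, ?_, ?_⟩
          · rw [h, uIcc_of_le (by linarith)] at ht
            linarith [ht.1]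
          · rw [h, uIcc_of_le (by linarith)] at ht
            linarith [ht.2]
      obtain ⟨h, rfl, hh0, hhη⟩ := hth
      rw [ff_norm T D n σ ε y h hσ]
      have hcos : 0 ≤ Real.cos h :=
        Real.cos_nonneg_of_neg_pi_div_two_le_of_le (by linarith) (by linarith)
      have hsin : 0 ≤ Real.sin h := Real.sin_nonneg_of_nonneg_of_le_pi hh0 (by linarith)
      have h1 : Real.exp (-(Real.exp y * (ε * Real.cos h + 2 * Real.pi * n * Real.sin h))) ≤
          1 := by
        rw [← Real.exp_zero]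
        apply Real.exp_le_exp.2
        have : 0 ≤ Real.exp y * (ε * Real.cos h + 2 * Real.pi * n * Real.sin h) := by
          positivity
        linarith
      refine (mul_le_of_le_one_left (Real.exp_pos _).le h1).trans ?_
      unfold G1
      rw [← Real.exp_add]
      apply Real.exp_le_exp.2
      have h2 : σ * T * h ≤ T * η := by
        have h3 : σ * T * h ≤ T * h := by
          have : 0 ≤ T * h := by positivity
          rcases hσ with hs | hs <;> rw [hs] <;> nlinarith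
        exact h3.trans (mul_le_mul_of_nonneg_left hhη hT0.le)
      have h4 : D ^ 2 * h ^ 2 ≤ D ^ 2 * η ^ 2 :=
        mul_le_mul_of_nonneg_left (pow_le_pow_left₀ hh0 hhη 2) (by positivity)
      nlinarith
  rw [Ke_eq, hshift]
  have hbound : ∀ y : ℝ, ‖ff T D n σ ε (y + ((-σ * η : ℝ) : ℂ) * I)‖ ≤
      Real.exp (-14 * L) * G1 D y + Real.exp (9 * L - D ^ 2 / 8) * G2 D y := by
    intro y
    rw [ff_norm T D n σ ε y η hσ]
    have hcos : 0 ≤ Real.cos η :=
      Real.cos_nonneg_of_neg_pi_div_two_le_of_le (by linarith) (by linarith)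
    have hsin : 2 / Real.pi * η ≤ Real.sin η := Real.mul_le_sin hη0.le (by linarith)
    have hsinn : 64 * L ≤ 2 * Real.pi * n * Real.sin η := by
      have h1 : 2 * Real.pi * n * (2 / Real.pi * η) ≤ 2 * Real.pi * n * Real.sin η :=
        mul_le_mul_of_nonneg_left hsin (by positivity)
      have h2 : 2 * Real.pi * n * (2 / Real.pi * η) = 4 * n * η := by
        field_simp
        ring
      rw [h2] at h1
      have h3 : 4 * (2 * T) * η ≤ 4 * n * η := by
        apply mul_le_mul_of_nonneg_right _ hη0.le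
        linarith
      nlinarith
    have hεc : 0 ≤ ε * Real.cos η := by positivity
    have hey := Real.exp_pos y
    have hA : Real.exp y * (64 * L) ≤
        Real.exp y * (ε * Real.cos η + 2 * Real.pi * n * Real.sin η) :=
      mul_le_mul_of_nonneg_left (by linarith) hey.le
    have h2 : σ * T * η ≤ 8 * L := by
      rw [← hTη]
      have : 0 ≤ T * η := by positivity
      rcases hσ with hs | hs <;> rw [hs] <;> nlinarith
    rw [← Real.exp_add]
    by_cases hy : -1 ≤ y
    · have h3 : (0.36 : ℝ) ≤ Real.exp y := by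
        have h4 : Real.exp (-1) ≤ Real.exp y := Real.exp_le_exp.2 hy
        have h5 : (0.36 : ℝ) ≤ Real.exp (-1) := by
          have := Real.exp_neg_one_gt_d9
          linarith
        linarith
      have h6 : 0.36 * (64 * L) ≤ Real.exp y * (64 * L) :=
        mul_le_mul_of_nonneg_right h3 (by positivity)
      have h7 : Real.exp (-(Real.exp y * (ε * Real.cos η + 2 * Real.pi * n * Real.sin η)) +
          (y / 2 + σ * T * η - D ^ 2 * (y ^ 2 - η ^ 2) / 4)) ≤ Real.exp (-14 * L) * G1 D y := by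
        unfold G1
        rw [← Real.exp_add]
        apply Real.exp_le_exp.2
        nlinarith
      have h8 : 0 ≤ Real.exp (9 * L - D ^ 2 / 8) * G2 D y := by
        unfold G2
        positivity
      linarith
    · push Not at hy
      have h7 : Real.exp (-(Real.exp y * (ε * Real.cos η + 2 * Real.pi * n * Real.sin η)) +
          (y / 2 + σ * T * η - D ^ 2 * (y ^ 2 - η ^ 2) / 4)) ≤
          Real.exp (9 * L - D ^ 2 / 8) * G2 D y := by
        unfold G2
        rw [← Real.exp_add]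
        apply Real.exp_le_exp.2
        have h9 : 0 ≤ Real.exp y * (64 * L) := by positivity
        have h10 : D ^ 2 ≤ D ^ 2 * y ^ 2 := by
          have : 1 ≤ y ^ 2 := by nlinarith
          nlinarith [sq_nonneg D]
        nlinarith
      have h8 : 0 ≤ Real.exp (-14 * L) * G1 D y := by
        unfold G1
        positivity
      linarith
  have hI : Integrable fun y : ℝ =>
      Real.exp (-14 * L) * G1 D y + Real.exp (9 * L - D ^ 2 / 8) * G2 D y :=
    ((G1_int D hD0).const_mul _).add ((G2_int D hD0).const_mul _)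
  refine (norm_integral_le_of_norm_le hI (Eventually.of_forall hbound)).trans ?_
  rw [integral_add ((G1_int D hD0).const_mul _) ((G2_int D hD0).const_mul _),
    integral_const_mul, integral_const_mul]
  have h1 : Real.exp (-14 * L) * ∫ y : ℝ, G1 D y ≤ Real.exp (-14 * L) * 5 := by
    apply mul_le_mul_of_nonneg_left _ (Real.exp_pos _).le
    refine (G1_val D hD1).trans ?_
    rw [div_le_iff₀ hD0]
    linarith
  have h2 : Real.exp (9 * L - D ^ 2 / 8) * ∫ y : ℝ, G2 D y ≤ Real.exp (-14 * L) * 6 := by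
    have h3 : Real.exp (9 * L - D ^ 2 / 8) ≤ Real.exp (-14 * L) := by
      apply Real.exp_le_exp.2
      nlinarith
    have h4 : 0 ≤ ∫ y : ℝ, G2 D y := integral_nonneg fun y => (Real.exp_pos _).le
    exact mul_le_mul h3 (G2_val D hD1) h4 (Real.exp_pos _).le
  have h5 : T ^ (-(12 : ℝ)) = Real.exp (-12 * L) := by
    rw [Real.rpow_def_of_pos hT0, ← hL]
    congr 1
    ring
  rw [h5]
  have h6 : Real.exp (-12 * L) = Real.exp (-14 * L) * Real.exp (2 * L) := by
    rw [← Real.exp_add]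
    congr 1
    ring
  have h7 : (11 : ℝ) ≤ Real.exp (2 * L) := by
    have := Real.add_one_le_exp (2 * L)
    linarith
  rw [h6]
  have h8 := Real.exp_pos (-14 * L)
  nlinarith

theorem qs_ke : Pool.Agent.W188.QS.StKe := by
  refine ⟨fun T Δ ε σ hD hε n => part1 T Δ ε σ hD hε n, 8, Real.exp 200, by norm_num, ?_⟩
  intro T Δ ε σ hT hD hB hε hσ n hn
  exact part2 T Δ ε σ hT hD hB hε hσ n hn

end Pool.Agent.W975.QSKe
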