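import Pool.Agent.W188.QS.Stm2

/-!
# QS2-QUAD: the approximate quadrature formula
-/

set_option maxHeartbeats 400000

namespace Pool.Agent.W975.QSQuad

open Complex MeasureTheory Set Filter Topology
open Pool.Agent.W188.QS

theorem cont_Zk (k : ℕ) : Continuous (Zk k) := by
  unfold Zk
  refine Continuous.pow (Continuous.norm ?_) _
  rw [continuous_iff_continuousAt]
  intro t
  have h1 : cp t ≠ 1 := by
    intro h
    have := congrArg Complex.re h
    simp [cp] at this
  have h2 : ContinuousAt riemannZeta (cp t) := (differentiableAt_riemannZeta h1).continuousAt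
  have h3 : ContinuousAt cp t := by
    unfold cp
    fun_prop
  exact ContinuousAt.comp (f := cp) h2 h3

theorem cont_gg (T D : ℝ) : Continuous (gg T D) := by
  unfold gg
  fun_prop

theorem cp_mk (t : ℝ) : (⟨1 / 2, t⟩ : ℂ) = cp t := by
  apply Complex.ext
  · simp [cp]
  · simp [cp]

/-- monotonicity of sums over finite sets -/
theorem finsum_mono (f : ℝ → ℝ) (U V : Set ℝ) (hUV : U ⊆ V) (hV : V.Finite)
    (hf : ∀ t ∈ V, 0 ≤ f t) : ∑ᶠ t ∈ U, f t ≤ ∑ᶠ t ∈ V, f t := by
  rw [finsum_mem_eq_finite_toFinset_sum f (hV.subset hUV),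
    finsum_mem_eq_finite_toFinset_sum f hV]
  refine Finset.sum_le_sum_of_subset_of_nonneg ?_ ?_
  · intro t ht
    rw [Set.Finite.mem_toFinset] at ht ⊢
    exact hUV ht
  · intro t ht _
    rw [Set.Finite.mem_toFinset] at ht
    exact hf t ht

theorem small (f : ℝ → ℝ) (hf : Continuous f) (u v m : ℝ) (huv : u ≤ v) (hv : v ≤ u + 1)
    (h0 : ∀ t ∈ Icc u v, 0 ≤ f t) (hm : ∀ t ∈ Icc u v, f t ≤ m) :
    0 ≤ ∫ t in u..v, f t ∧ ∫ t in u..v, f t ≤ m := by
  have hm0 : 0 ≤ m := (h0 u ⟨le_refl _, huv⟩).trans (hm u ⟨le_refl _, huv⟩)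
  constructor
  · exact intervalIntegral.integral_nonneg huv h0
  · calc ∫ t in u..v, f t ≤ ∫ _ in u..v, m :=
          intervalIntegral.integral_mono_on huv (hf.intervalIntegrable _ _)
            intervalIntegrable_const hm
      _ = (v - u) * m := by simp
      _ ≤ m := by nlinarith

theorem qs_quad (h0 : StLine) (h1 : StGood) (h2 : StRes) (h3 : StFold) (h4 : StEdge) :
    StQuad := by
  obtain ⟨hlam, _, _, hFF, hGG, _, _, _, _, hfin⟩ := h0
  intro k N hN
  obtain ⟨B, T1, hB, hT1, hE⟩ := h4 k 5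
  obtain ⟨T2, hT2, hgood⟩ := h1 N hN
  refine ⟨B, max T1 (2 * T2 + 300), hB, le_max_of_le_left hT1, ?_⟩
  intro c T D E hc hT hD hBD hQ
  have hTT1 : T1 ≤ T := (le_max_left _ _).trans hT
  have hTT2 : 2 * T2 + 300 ≤ T := (le_max_right _ _).trans hT
  have hT0 : 0 < T := by linarith
  obtain ⟨a, ha1, ha2, hag⟩ := hgood c hc (T / 2) (by linarith)
  obtain ⟨b, hb1, hb2, hbg⟩ := hgood c hc (3 * T / 2 - 1) (by linarith)
  obtain ⟨a', ha'1, ha'2, ha'g⟩ := hgood c hc (T / 2 - 1) (by linarith)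
  obtain ⟨b', hb'1, hb'2, hb'g⟩ := hgood c hc (3 * T / 2) (by linarith)
  obtain ⟨m, hm⟩ : ∃ m, m = T ^ (-(5 : ℝ)) := ⟨_, rfl⟩
  have hm0 : 0 < m := by
    rw [hm]
    exact Real.rpow_pos_of_pos hT0 _
  have hedge := hE T D hTT1 hD hBD
  rw [← hm] at hedge
  obtain ⟨f, hf⟩ : ∃ f : ℝ → ℝ, f = fun t => Zk k t * gg T D t := ⟨_, rfl⟩
  have hfc : Continuous f := by
    rw [hf]
    exact (cont_Zk k).mul (cont_gg T D)
  have hgg : ∀ t, 0 ≤ gg T D t := fun t => (Real.exp_pos _).le
  have hZk : ∀ t, 0 ≤ Zk k t := fun t => by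
    unfold Zk
    positivity
  have hf0 : ∀ t, 0 ≤ f t := by
    intro t
    rw [hf]
    exact mul_nonneg (hZk t) (hgg t)
  have hfm : ∀ t, 1 ≤ t → (|t - T / 2| ≤ 1 ∨ |t - 3 * T / 2| ≤ 1) → f t ≤ m := by
    intro t ht1 ht
    have h5 := hedge t ht (1 / 2) (le_refl _) (by norm_num)
    rw [cp_mk, hFF t ht1 k, hGG T D t, ← Complex.ofReal_mul, Complex.norm_real,
      Real.norm_eq_abs] at h5
    rw [hf]
    exact (le_abs_self _).trans h5
  -- the discrete sums
  have hterm : ∀ t ∈ PP c N, 0 ≤ rho k N t * gg T D t := by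
    intro t ht
    have ht1 : 100 < t := ht.1
    have h5 : 1 ≤ lam t := (hlam t (by linarith)).2.2
    have h6 : 0 ≤ Zk k t / lam t := div_nonneg (hZk t) (by linarith)
    have h7 : 0 ≤ rho k N t := by
      unfold rho
      have := Real.pi_pos
      positivity
    exact mul_nonneg h7 (hgg t)
  have hSmono : ∀ u v u' v' : ℝ, u' ≤ u → v ≤ v' →
      ∑ᶠ t ∈ PP c N ∩ Ioo u v, rho k N t * gg T D t ≤
        ∑ᶠ t ∈ PP c N ∩ Ioo u' v', rho k N t * gg T D t := by
    intro u v u' v' hu hv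
    refine finsum_mono _ _ _ ?_ ?_ ?_
    · intro t ht
      exact ⟨ht.1, lt_of_le_of_lt hu ht.2.1, lt_of_lt_of_le ht.2.2 hv⟩
    · refine (hfin c N hc hN v').subset ?_
      intro t ht
      exact ⟨ht.1, ht.2.2.le⟩
    · intro t ht
      exact hterm t ht.1
  have hmain : ∀ α β : ℝ, |α - T / 2| ≤ 1 → |β - 3 * T / 2| ≤ 1 → 100 ≤ α → α < β →
      Good c N α → Good c N β →
      |(∑ᶠ t ∈ PP c N ∩ Ioo α β, rho k N t * gg T D t) - ∫ t in α..β, f t| ≤
        2 * E + 22 * m := by
    intro α β hα hβ hα100 hαβ hgα hgβ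
    have h5 := h2 c k N T D α β hc hN (by linarith) hα100 hαβ hgα.1 hgβ.1
    have h6 := h3 c k N T D α β m hc hN (by linarith) hα100 hαβ hgα hgβ
      (hedge α (Or.inl hα)) (hedge β (Or.inr hβ))
    rw [h5, ← mul_sub, norm_mul, norm_I, one_mul, ← Complex.ofReal_sub, Complex.norm_real,
      Real.norm_eq_abs] at h6
    have h7 := hQ α β hα hβ
    rw [hf]
    linarith
  have hS1 := hmain a b (by rw [abs_le]; constructor <;> linarith)
    (by rw [abs_le]; constructor <;> linarith) (by linarith) (by linarith) hag hbg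
  have hS2 := hmain a' b' (by rw [abs_le]; constructor <;> linarith)
    (by rw [abs_le]; constructor <;> linarith) (by linarith) (by linarith) ha'g hb'g
  have hm1 := hSmono a b (T / 2) (3 * T / 2) ha1 (by linarith)
  have hm2 := hSmono (T / 2) (3 * T / 2) a' b' (by linarith) hb'1
  -- the integrals
  have hii : ∀ u v : ℝ, IntervalIntegrable f volume u v := fun u v =>
    hfc.intervalIntegrable u v
  have i1 := small f hfc a' (T / 2) m (by linarith) (by linarith) (fun t _ => hf0 t)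
    (fun t ht => hfm t (by linarith [ht.1]) (Or.inl (by
      rw [abs_le]; constructor <;> linarith [ht.1, ht.2])))
  have i2 := small f hfc (T / 2) a m (by linarith) (by linarith) (fun t _ => hf0 t)
    (fun t ht => hfm t (by linarith [ht.1]) (Or.inl (by
      rw [abs_le]; constructor <;> linarith [ht.1, ht.2])))
  have i3 := small f hfc b (3 * T / 2) m (by linarith) (by linarith) (fun t _ => hf0 t)
    (fun t ht => hfm t (by linarith [ht.1]) (Or.inr (by
      rw [abs_le]; constructor <;> linarith [ht.1, ht.2])))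
  have i4 := small f hfc (3 * T / 2) b' m (by linarith) (by linarith) (fun t _ => hf0 t)
    (fun t ht => hfm t (by linarith [ht.1]) (Or.inr (by
      rw [abs_le]; constructor <;> linarith [ht.1, ht.2])))
  have j1 : (∫ t in (T / 2)..(3 * T / 2), f t) = (∫ t in (T / 2)..a, f t) +
      (∫ t in a..b, f t) + ∫ t in b..(3 * T / 2), f t := by
    rw [intervalIntegral.integral_add_adjacent_intervals (hii _ _) (hii _ _),
      intervalIntegral.integral_add_adjacent_intervals (hii _ _) (hii _ _)]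
  have j2 : (∫ t in a'..b', f t) = (∫ t in a'..(T / 2), f t) +
      (∫ t in (T / 2)..(3 * T / 2), f t) + ∫ t in (3 * T / 2)..b', f t := by
    rw [intervalIntegral.integral_add_adjacent_intervals (hii _ _) (hii _ _),
      intervalIntegral.integral_add_adjacent_intervals (hii _ _) (hii _ _)]
  have hlast : 26 * m ≤ T ^ (-(3 : ℝ)) := by
    have e : T ^ (-(3 : ℝ)) = m * T ^ 2 := by
      rw [hm]
      have e2 : T ^ 2 = T ^ (2 : ℝ) := by
        exact_mod_cast (Real.rpow_natCast T 2).symm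
      rw [e2, ← Real.rpow_add hT0]
      norm_num
    rw [e]
    have h5 : (26 : ℝ) ≤ T ^ 2 := by nlinarith
    nlinarith
  have hfin1 : (∫ t in (T / 2)..(3 * T / 2), Zk k t * gg T D t) =
      ∫ t in (T / 2)..(3 * T / 2), f t := by rw [hf]
  rw [hfin1, abs_le]
  rw [abs_le] at hS1 hS2
  obtain ⟨i1a, i1b⟩ := i1
  obtain ⟨i2a, i2b⟩ := i2
  obtain ⟨i3a, i3b⟩ := i3
  obtain ⟨i4a, i4b⟩ := i4
  constructor
  · linarith [hS1.1]
  · linarith [hS2.2]

end Pool.Agent.W975.QSQuad
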