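import Pool.Agent.W842.BV.Stms

/-!
# Part BV-TRANS: transfer of a triple system to `Fin n`
-/

set_option autoImplicit false

namespace Pool.Agent.W975.BV

open Finset
open Pool.Agent.W842.BV

theorem mem_nbr {V : Type} [Fintype V] [DecidableEq V] (H : Finset (Finset V)) (v w : V) :
    w ∈ nbr H v ↔ w ≠ v ∧ ∃ e ∈ H, v ∈ e ∧ w ∈ e := by
  unfold nbr
  rw [mem_filter]
  exact ⟨fun h => h.2, fun h => ⟨mem_univ _, h⟩⟩

theorem t_TRANS : S_TRANS := by
  intro V _ _ H n m hcard h3 h6 hvc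
  obtain ⟨ι⟩ : Nonempty (V ↪ Fin n) :=
    Function.Embedding.nonempty_of_card_le (by rw [Fintype.card_fin]; exact hcard)
  have hι : Function.Injective ι := ι.injective
  set H' : Finset (Finset (Fin n)) := H.image (fun e => e.image ι) with hH'
  have hmemi : ∀ (e : Finset V) (v : V), ι v ∈ e.image ι ↔ v ∈ e := by
    intro e v
    rw [mem_image]
    exact ⟨fun ⟨u, hu, h⟩ => hι h ▸ hu, fun h => ⟨v, h, rfl⟩⟩
  have hinj : Function.Injective (fun e : Finset V => e.image ι) := by
    intro e e' h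
    ext v
    rw [← hmemi e v, ← hmemi e' v]
    exact iff_of_eq (congrArg (fun s => ι v ∈ s) h)
  have hnb : ∀ (v u : V), ι u ∈ nbr H' (ι v) ↔ u ∈ nbr H v := by
    intro v u
    rw [mem_nbr, mem_nbr]
    refine and_congr (not_congr hι.eq_iff) ?_
    constructor
    · rintro ⟨e', he', h1, h2⟩
      obtain ⟨e, he, rfl⟩ := mem_image.1 he'
      exact ⟨e, he, (hmemi e v).1 h1, (hmemi e u).1 h2⟩
    · rintro ⟨e, he, h1, h2⟩
      exact ⟨e.image ι, mem_image_of_mem _ he, (hmemi e v).2 h1, (hmemi e u).2 h2⟩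
  have hrange : ∀ (w x : Fin n), x ∈ nbr H' w → (∃ v, ι v = w) ∧ ∃ u, ι u = x := by
    intro w x hx
    obtain ⟨_, e', he', h1, h2⟩ := (mem_nbr _ _ _).1 hx
    obtain ⟨e, he, rfl⟩ := mem_image.1 he'
    obtain ⟨v, _, hv⟩ := mem_image.1 h1
    obtain ⟨u, _, hu⟩ := mem_image.1 h2
    exact ⟨⟨v, hv⟩, u, hu⟩
  refine ⟨H', ⟨?_, ?_⟩, ?_, ?_⟩
  · intro e' he'
    obtain ⟨e, he, rfl⟩ := mem_image.1 he'
    rw [card_image_of_injective _ hι]
    exact h3 e he
  · intro S hS
    set S' : Finset V := univ.filter (fun v => ι v ∈ S) with hS'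
    have hS'c : S'.card ≤ 6 := by
      have h1 : S'.image ι ⊆ S := by
        intro x hx
        obtain ⟨v, hv, rfl⟩ := mem_image.1 hx
        exact (mem_filter.1 hv).2
      have h2 := card_le_card h1
      rw [card_image_of_injective _ hι] at h2
      omega
    refine lt_of_le_of_lt ?_ (h6 S' hS'c)
    have h1 : H'.filter (fun e => e ⊆ S) ⊆ (H.filter (fun e => e ⊆ S')).image (fun e => e.image ι) := by
      intro e' he'
      obtain ⟨he1, he2⟩ := mem_filter.1 he'
      obtain ⟨e, he, rfl⟩ := mem_image.1 he1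
      refine mem_image_of_mem _ (mem_filter.2 ⟨he, fun v hv => ?_⟩)
      exact mem_filter.2 ⟨mem_univ _, he2 ((hmemi e v).2 hv)⟩
    exact (card_le_card h1).trans card_image_le
  · unfold Finset.vcDim
    refine Finset.sup_le fun S hS => ?_
    rw [Finset.mem_shatterer] at hS
    set S' : Finset V := univ.filter (fun v => ι v ∈ S) with hS'
    have hmS : ∀ v, v ∈ S' ↔ ι v ∈ S := fun v => by
      rw [hS', mem_filter]
      exact ⟨fun h => h.2, fun h => ⟨mem_univ _, h⟩⟩
    have hSS' : S = S'.image ι := by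
      ext x
      constructor
      · intro hx
        obtain ⟨u, hu, h1⟩ := hS (t := {x}) (by simpa using hx)
        obtain ⟨w, _, rfl⟩ := mem_image.1 hu
        have h2 : x ∈ S ∩ nbr H' w := by rw [h1]; simp
        obtain ⟨_, v, rfl⟩ := hrange w x (mem_inter.1 h2).2
        exact mem_image_of_mem _ ((hmS v).2 hx)
      · intro hx
        obtain ⟨v, hv, rfl⟩ := mem_image.1 hx
        exact (hmS v).1 hv
    have hc : S.card = S'.card := by
      conv_lhs => rw [hSS']
      exact card_image_of_injective _ hι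
    rw [hc]
    refine hvc S' fun T hT hTn => ?_
    have hTS : T.image ι ⊆ S := by
      rw [hSS']
      exact image_subset_image hT
    obtain ⟨u, hu, h1⟩ := hS hTS
    obtain ⟨w, _, rfl⟩ := mem_image.1 hu
    obtain ⟨t0, ht0⟩ := hTn
    have h2 : ι t0 ∈ S ∩ nbr H' w := by rw [h1]; exact mem_image_of_mem _ ht0
    obtain ⟨⟨v, rfl⟩, _⟩ := hrange w _ (mem_inter.1 h2).2
    refine ⟨v, ?_⟩
    ext x
    rw [mem_inter, ← hnb v x, hmS x, and_comm, ← mem_inter, h1, hmemi]
  · rw [hH', card_image_of_injective _ hinj]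

end Pool.Agent.W975.BV
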