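import Pool.Agent.W894.HT.MDefs
import Pool.Agent.W352.HTTog

/-!
# HM-WTOG: toggling a block between two consecutive elements, with weights that cancel
-/

set_option autoImplicit false
set_option maxHeartbeats 400000

namespace Pool.Agent.W975.HMWtog

open Pool.Agent.W894.HT
open Pool.Agent.W352.HTTog (uniq mixed rem fil)

open Classical in
theorem main : S_WTOG := by
  intro N Q ω u v w hw huv hnd H1 H2 W1 W2
  -- the two sets
  set P0 : List N → Prop := fun l => ([u, v] <:+: l ∨ [v, u] <:+: l) ∧ ∀ z ∈ w, z ∉ l with hP0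
  set P1 : List N → Prop := fun l => u :: (w ++ [v]) <:+: l ∨ v :: (w.reverse ++ [u]) <:+: l
    with hP1
  -- description of the second set
  have hX1 : ∀ l ∈ Q, P1 l → ∃ A B : List N,
      (l = A ++ u :: (w ++ v :: B) ∧ A ++ u :: v :: B ∈ Q ∧ ∀ z ∈ w, z ∉ A ++ u :: v :: B) ∨
      (l = A ++ v :: (w.reverse ++ u :: B) ∧ A ++ v :: u :: B ∈ Q ∧
        ∀ z ∈ w, z ∉ A ++ v :: u :: B) := by
    rintro l hl (⟨A, B, h⟩ | ⟨A, B, h⟩)
    · have h' : l = A ++ u :: (w ++ v :: B) := by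
        rw [← h]
        simp
      refine ⟨A, B, Or.inl ⟨h', ?_⟩⟩
      exact (H1 A B).2 (by rw [← h']; exact hl)
    · have h' : l = A ++ v :: (w.reverse ++ u :: B) := by
        rw [← h]
        simp
      refine ⟨A, B, Or.inr ⟨h', ?_⟩⟩
      exact (H2 A B).2 (by rw [← h']; exact hl)
  have hrev : ∀ z ∈ w.reverse, z ∈ w := fun z hz => List.mem_reverse.1 hz
  have hcard : ∑ l ∈ Q.filter P1, ω l = ∑ l ∈ Q.filter P0, (-ω l) := by
    refine Finset.sum_bij (fun l _ => rem w l) ?_ ?_ ?_ ?_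
    · intro l hl
      obtain ⟨hlQ, hl1⟩ := Finset.mem_filter.1 hl
      obtain ⟨A, B, ⟨h, h3, h4⟩ | ⟨h, h3, h4⟩⟩ := hX1 l hlQ hl1
      · rw [h, fil (fun z hz => hz) h4]
        exact Finset.mem_filter.2 ⟨h3, Or.inl ⟨A, B, by simp⟩, h4⟩
      · rw [h, fil hrev h4]
        exact Finset.mem_filter.2 ⟨h3, Or.inr ⟨A, B, by simp⟩, h4⟩
    · intro l hl l' hl' heq
      obtain ⟨hlQ, hl1⟩ := Finset.mem_filter.1 hl
      obtain ⟨hlQ', hl1'⟩ := Finset.mem_filter.1 hl'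
      obtain ⟨A, B, ⟨h, h3, h4⟩ | ⟨h, h3, h4⟩⟩ := hX1 l hlQ hl1
      · obtain ⟨A', B', ⟨h', h3', h4'⟩ | ⟨h', h3', h4'⟩⟩ := hX1 l' hlQ' hl1'
        · rw [h, h', fil (fun z hz => hz) h4, fil (fun z hz => hz) h4'] at heq
          obtain ⟨e1, e2⟩ := uniq (hnd _ h3) heq
          have e3 : B = B' := (List.cons.inj e2).2
          rw [h, h', e1, e3]
        · rw [h, h', fil (fun z hz => hz) h4, fil hrev h4'] at heq
          exact (mixed (hnd _ h3) heq).elim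
      · obtain ⟨A', B', ⟨h', h3', h4'⟩ | ⟨h', h3', h4'⟩⟩ := hX1 l' hlQ' hl1'
        · rw [h, h', fil hrev h4, fil (fun z hz => hz) h4'] at heq
          exact (mixed (hnd _ h3) heq).elim
        · rw [h, h', fil hrev h4, fil hrev h4'] at heq
          obtain ⟨e1, e2⟩ := uniq (hnd _ h3) heq
          have e3 : B = B' := (List.cons.inj e2).2
          rw [h, h', e1, e3]
    · intro m hm
      obtain ⟨hmQ, h1, h2⟩ := Finset.mem_filter.1 hm
      rcases h1 with ⟨A, B, h⟩ | ⟨A, B, h⟩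
      · have h' : m = A ++ u :: v :: B := by rw [← h]; simp
        rw [h'] at hmQ h2
        have h5 := (H1 A B).1 ⟨hmQ, h2⟩
        refine ⟨A ++ u :: (w ++ v :: B), Finset.mem_filter.2 ⟨h5, Or.inl ⟨A, B, by simp⟩⟩, ?_⟩
        rw [h', fil (fun z hz => hz) h2]
      · have h' : m = A ++ v :: u :: B := by rw [← h]; simp
        rw [h'] at hmQ h2
        have h5 := (H2 A B).1 ⟨hmQ, h2⟩
        refine ⟨A ++ v :: (w.reverse ++ u :: B),
          Finset.mem_filter.2 ⟨h5, Or.inr ⟨A, B, by simp⟩⟩, ?_⟩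
        rw [h', fil hrev h2]
    · intro l hl
      obtain ⟨hlQ, hl1⟩ := Finset.mem_filter.1 hl
      obtain ⟨A, B, ⟨h, h3, h4⟩ | ⟨h, h3, h4⟩⟩ := hX1 l hlQ hl1
      · have e1 := W1 A B (by rw [← h]; exact hlQ)
        rw [h, fil (fun z hz => hz) h4]
        exact e1
      · have e1 := W2 A B (by rw [← h]; exact hlQ)
        rw [h, fil hrev h4]
        exact e1
  rw [Finset.sum_neg_distrib] at hcard
  -- the sets are disjoint
  obtain ⟨z0, hz0⟩ := List.exists_mem_of_ne_nil w hw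
  have hdis : ∀ l, P0 l → P1 l → False := by
    rintro l ⟨-, h2⟩ (⟨A, B, h⟩ | ⟨A, B, h⟩)
    · exact h2 z0 hz0 (by rw [← h]; simp [hz0])
    · exact h2 z0 hz0 (by rw [← h]; simp [hz0])
  have hs1 : ∑ l ∈ Q.filter P0, ω l + ∑ l ∈ Q.filter (fun l => ¬ P0 l), ω l = ∑ l ∈ Q, ω l :=
    Finset.sum_filter_add_sum_filter_not Q P0 ω
  have hs2 : ∑ l ∈ (Q.filter fun l => ¬ P0 l).filter P1, ω l +
      ∑ l ∈ (Q.filter fun l => ¬ P0 l).filter (fun l => ¬ P1 l), ω l =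
      ∑ l ∈ Q.filter (fun l => ¬ P0 l), ω l :=
    Finset.sum_filter_add_sum_filter_not _ P1 ω
  have hs3 : (Q.filter fun l => ¬ P0 l).filter P1 = Q.filter P1 := by
    ext l
    simp only [Finset.mem_filter]
    constructor
    · rintro ⟨⟨h1, -⟩, h2⟩
      exact ⟨h1, h2⟩
    · rintro ⟨h1, h2⟩
      exact ⟨⟨h1, fun h => hdis l h h2⟩, h2⟩
  have hs4 : (Q.filter fun l => ¬ P0 l).filter (fun l => ¬ P1 l) =
      Q.filter fun l => ¬ P0 l ∧ ¬ P1 l := by
    rw [Finset.filter_filter]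
  rw [hs3, hs4] at hs2
  show ∑ l ∈ Q, ω l = ∑ l ∈ Q.filter (fun l => ¬ P0 l ∧ ¬ P1 l), ω l
  linarith

end Pool.Agent.W975.HMWtog
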