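import Pool.Agent.W894.HT.Defs

/-!
# HT-HP: Hamiltonian paths of the tournament modulo four, from the word sums
-/

set_option maxHeartbeats 400000

namespace Pool.Agent.W975.HTHp

open Pool.Agent.W894.HT

/-- the positions are a permutation of the range -/
theorem permR (m : ℕ) : (Zt m ++ (Vd m ++ [3, 1])).Perm (List.range' 1 (3 * m + 3)) := by
  induction m with
  | zero =>
    have : List.range' 1 (3 * 0 + 3) = [1, 2, 3] := by decide
    rw [this]
    show ([2, 3, 1] : List ℕ).Perm [1, 2, 3]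
    decide
  | succ m ih =>
    have e : List.range' 1 (3 * (m + 1) + 3) =
        List.range' 1 (3 * m + 3) ++ [3 * m + 4, 3 * m + 5, 3 * m + 6] := by
      have h1 : 3 * (m + 1) + 3 = (3 * m + 3) + 3 := by ring
      rw [h1, ← List.range'_append_1]
      congr 1
      have h2 : 1 + (3 * m + 3) = 3 * m + 4 := by ring
      rw [h2]
      rfl
    rw [e]
    have h3 : (Zt (m + 1) ++ (Vd (m + 1) ++ [3, 1])).Perm
        ([3 * m + 4, 3 * m + 5, 3 * m + 6] ++ (Zt m ++ (Vd m ++ [3, 1]))) := by
      show ((3 * m + 4) :: (3 * m + 5) :: (Zt m ++ ((3 * m + 6) :: (Vd m ++ [3, 1])))).Perm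
        ((3 * m + 4) :: (3 * m + 5) :: (3 * m + 6) :: (Zt m ++ (Vd m ++ [3, 1])))
      exact (List.perm_middle.cons _).cons _
    exact h3.trans (List.perm_append_comm.trans (ih.append_right _))

theorem permR3 (m : ℕ) : (3 :: (Zt m ++ (Vd m ++ [1]))).Perm (List.range' 1 (3 * m + 3)) := by
  refine List.Perm.trans ?_ (permR m)
  have h1 : (Zt m ++ (Vd m ++ [3, 1])).Perm (3 :: (Zt m ++ (Vd m ++ [1]))) := by
    have h2 : Zt m ++ (Vd m ++ [3, 1]) = (Zt m ++ Vd m) ++ 3 :: [1] := by
      simp
    rw [h2]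
    refine List.perm_middle.trans ?_
    simp
  exact h1.symm

theorem Zt_mem (m : ℕ) : ∀ z ∈ Zt m, z ≠ 1 ∧ z % 3 ≠ 0 := by
  induction m with
  | zero =>
    intro z hz
    have : z = 2 := by simpa [Zt] using hz
    subst this
    decide
  | succ m ih =>
    intro z hz
    have h : z = 3 * m + 4 ∨ z = 3 * m + 5 ∨ z ∈ Zt m := by simpa [Zt] using hz
    rcases h with h | h | h
    · constructor <;> omega
    · constructor <;> omega
    · exact ih z h

theorem Vd_mem (m : ℕ) : ∀ z ∈ Vd m, z % 3 = 0 := by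
  induction m with
  | zero =>
    intro z hz
    simp [Vd] at hz
  | succ m ih =>
    intro z hz
    have h : z = 3 * m + 6 ∨ z ∈ Vd m := by simpa [Vd] using hz
    rcases h with h | h
    · omega
    · exact ih z h

theorem phi0 {A : Type} [CommRing A] {m : ℕ} {F : ℕ → ℕ → Bool} (hF : Fok m F) {z : ℕ}
    (hz : z ≠ 1 ∧ (z % 3 ≠ 0 ∨ z = 0)) (u : ℕ) :
    (phi F u z : A) = 0 ∧ (phi F z u : A) = 0 := by
  have h1 : F u z ≠ true := by
    intro h
    rcases (hF _ _ h).2 with h2 | h2
    · exact hz.1 h2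
    · rcases hz.2 with h3 | h3
      · exact h3 h2.1
      · omega
  have h2 : F z u ≠ true := by
    intro h
    rcases (hF _ _ h).1 with h2 | h2
    · exact hz.1 h2
    · rcases hz.2 with h3 | h3
      · exact h3 h2.1
      · omega
  constructor
  · unfold phi
    rw [if_neg h1]
  · unfold phi
    rw [if_neg h2]

open Classical in
/-- counting lists as a sum over the permutations -/
theorem cardSum (W : List ℕ) (hW : W.Nodup) (P : List ℕ → Prop) :
    ((Nat.card {l : List ℕ // l.Perm W ∧ P l} : ℕ) : ZMod 4) =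
      (W.permutations'.map fun l => if P l then (1 : ZMod 4) else 0).sum := by
  have h1 : Nat.card {l : List ℕ // l.Perm W ∧ P l} =
      (W.permutations'.toFinset.filter fun l => P l).card := by
    refine Nat.subtype_card _ ?_
    intro l
    rw [Finset.mem_filter, List.mem_toFinset, List.mem_permutations']
  rw [h1, Finset.card_filter, Nat.cast_sum,
    ← List.sum_toFinset _
      ((List.permutations_perm_permutations' W).nodup_iff.1 (List.nodup_permutations W hW))]
  refine Finset.sum_congr rfl ?_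
  intro l _
  split_ifs
  · exact Nat.cast_one
  · exact Nat.cast_zero

open Classical in
theorem PSchain (hCHAIN : S_CHAIN) (F : ℕ → ℕ → Bool) (W : List ℕ) (x : ℕ)
    (hW : (x :: W).Nodup) :
    PS (A := ZMod 4) (phi F) (fun _ _ => 1) x W =
      ((Nat.card {l : List ℕ // l.Perm W ∧ (x :: l).IsChain (arc F)} : ℕ) : ZMod 4) := by
  rw [cardSum W (List.nodup_cons.1 hW).2 fun l => (x :: l).IsChain (arc F)]
  unfold PS
  refine congrArg List.sum (List.map_congr_left ?_)
  intro l hl
  have h1 : l.Perm W := List.mem_permutations'.1 hl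
  refine (hCHAIN (ZMod 4) F l x (fun _ => 0) ((h1.cons x).nodup_iff.2 hW)).trans ?_
  congr 1

/-- from the word sums with all the positions to those with parity filters -/
theorem PSmod (hSPACE : S_SPACE) (hMOD4 : S_MOD4) (m : ℕ) (F : ℕ → ℕ → Bool) (hF : Fok m F)
    (x : ℕ) (hx : x = 1 ∨ x % 3 = 0) (V : List ℕ) (hV : ∀ u ∈ V, u = 1 ∨ u % 3 = 0)
    (hW : (x :: (Zt m ++ V)).Nodup) :
    PS (A := ZMod 4) (phi F) (fun _ _ => 1) x (Zt m ++ V) = PS (phi F) (finM m) x V := by
  rw [hSPACE (ZMod 4) (phi F) (Zt m) V x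
    (fun z hz u => phi0 hF ⟨(Zt_mem m z hz).1, Or.inl (Zt_mem m z hz).2⟩ u)
    (List.nodup_cons.1 hW).2 (List.nodup_cons.1 hW).1]
  unfold PS
  refine congrArg List.sum (List.map_congr_left ?_)
  intro l hl
  have h1 : l.Perm V := List.mem_permutations'.1 hl
  refine hMOD4 m (phi F) x l ?_
  intro u hu
  rcases List.mem_cons.1 hu with h | h
  · rw [h]
    exact hx
  · exact hV u (h1.mem_iff.1 h)

theorem mainP (hCHAIN : S_CHAIN) (hSPACE : S_SPACE) (hMOD4 : S_MOD4) (hEVALH : S_EVALH)
    (_hEVALB : S_EVALB) : S_HP := by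
  intro m F hF
  have hperm := permR m
  have hnd : (Zt m ++ (Vd m ++ [3, 1])).Nodup :=
    hperm.nodup_iff.2 (List.nodup_range' ..)
  have h0 : 0 ∉ Zt m ++ (Vd m ++ [3, 1]) := by
    intro h
    have h2 := hperm.mem_iff.1 h
    rw [List.mem_range'_1] at h2
    omega
  have hnd0 : (0 :: (Zt m ++ (Vd m ++ [3, 1]))).Nodup := List.nodup_cons.2 ⟨h0, hnd⟩
  rw [← hEVALH m (ZMod 4) (phi F)
    (fun u => (phi0 hF ⟨by decide, Or.inr rfl⟩ u).2),
    ← PSmod hSPACE hMOD4 m F hF 0 (Or.inr rfl) (Vd m ++ [3, 1]) ?_ hnd0,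
    PSchain hCHAIN F _ 0 hnd0]
  · congr 1
    refine Nat.card_congr (Equiv.subtypeEquivRight ?_)
    intro l
    constructor
    · rintro ⟨h1, h2⟩
      refine ⟨h1.trans hperm.symm, ?_⟩
      cases l with
      | nil => exact List.isChain_singleton _
      | cons v l =>
        rw [List.isChain_cons_cons]
        refine ⟨?_, h2⟩
        have hv : v ∈ List.range' 1 (3 * m + 3) := h1.mem_iff.1 (List.mem_cons_self ..)
        rw [List.mem_range'_1] at hv
        refine Or.inl ⟨by omega, ?_⟩
        cases hc : F 0 v with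
        | false => rfl
        | true =>
          exfalso
          rcases (hF _ _ hc).1 with h3 | h3
          · omega
          · omega
    · rintro ⟨h1, h2⟩
      refine ⟨h1.trans hperm, ?_⟩
      exact h2.tail
  · intro u hu
    have hu' : u ∈ Vd m ∨ u = 3 ∨ u = 1 := by simpa using hu
    rcases hu' with h | h | h
    · exact Or.inr (Vd_mem m u h)
    · right
      rw [h]
    · exact Or.inl h

theorem mainS (hCHAIN : S_CHAIN) (hSPACE : S_SPACE) (hMOD4 : S_MOD4) (_hEVALH : S_EVALH)
    (hEVALB : S_EVALB) : S_HS := by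
  intro m F hF
  have hperm := permR3 m
  have hnd : (3 :: (Zt m ++ (Vd m ++ [1]))).Nodup :=
    hperm.nodup_iff.2 (List.nodup_range' ..)
  rw [← hEVALB m (ZMod 4) (phi F),
    ← PSmod hSPACE hMOD4 m F hF 3 (Or.inr rfl) (Vd m ++ [1]) ?_ hnd,
    PSchain hCHAIN F _ 3 hnd]
  · congr 1
    refine Nat.card_congr
      { toFun := fun l => ⟨l.1.tail, ?_⟩
        invFun := fun l => ⟨3 :: l.1, (l.2.1.cons 3).trans hperm, rfl, l.2.2⟩
        left_inv := ?_
        right_inv := ?_ }
    · obtain ⟨l, h1, h2, h3⟩ := l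
      cases l with
      | nil => simp at h2
      | cons v l =>
        have hv : v = 3 := by simpa using h2
        subst hv
        exact ⟨(List.perm_cons 3).1 (h1.trans hperm.symm), h3⟩
    · rintro ⟨l, h1, h2, h3⟩
      apply Subtype.ext
      cases l with
      | nil => simp at h2
      | cons v l =>
        have hv : v = 3 := by simpa using h2
        subst hv
        rfl
    · rintro ⟨l, h1⟩
      rfl
  · intro u hu
    have hu' : u ∈ Vd m ∨ u = 1 := by simpa using hu
    rcases hu' with h | h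
    · exact Or.inr (Vd_mem m u h)
    · exact Or.inl h

end Pool.Agent.W975.HTHp
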