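import Pool.Agent.W527.CL.Stm

/-!
# The real logarithms of the closure of `L`
-/

set_option autoImplicit false
set_option maxHeartbeats 400000
set_option linter.unusedSectionVars false

namespace Pool.Agent.W975.CLSPAN

open NumberField Pool.Agent.W527.CL

noncomputable section

variable {K : Type} [Field K] [NumberField K] (D : FieldData K)

theorem ev_mu (X : Matrix (Fin 4) (Fin 4) ℝ) (p : Equiv.Perm (Fin 5)) :
    ev (D.mu X) p =
      ∑ i, ∑ j, X i j * (D.lam j (p i.castSucc) - D.lam j (p (Fin.last 4))) := by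
  unfold ev FieldData.mu
  apply Finset.sum_congr rfl
  intro i _
  rw [← Finset.sum_sub_distrib]
  apply Finset.sum_congr rfl
  intro j _
  ring

/-- the linear map -/
def Psi : Matrix (Fin 4) (Fin 4) ℝ →ₗ[ℝ] ((K →+* ℂ) → ℝ) where
  toFun X φ := ev (D.mu X) (D.perm φ)
  map_add' X Y := by
    funext φ
    simp only [ev_mu, Pi.add_apply, Matrix.add_apply, add_mul, Finset.sum_add_distrib]
  map_smul' c X := by
    funext φ
    simp only [ev_mu, Pi.smul_apply, Matrix.smul_apply, smul_eq_mul, Finset.mul_sum, mul_assoc,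
      RingHom.id_apply]

/-- symmetric matrices -/
def Symm4 : Submodule ℝ (Matrix (Fin 4) (Fin 4) ℝ) where
  carrier := {X | X.IsSymm}
  add_mem' h1 h2 := Matrix.IsSymm.add h1 h2
  zero_mem' := Matrix.isSymm_zero
  smul_mem' c _ h := Matrix.IsSymm.smul h c

/-- the vector of the logarithms -/
def lg (u : (K →+* ℂ) → ℂˣ) : (K →+* ℂ) → ℝ := fun φ => Real.log ‖(u φ : ℂ)‖

theorem lg_mul (u v : (K →+* ℂ) → ℂˣ) : lg (u * v) = lg u + lg v := by
  funext φ
  show Real.log ‖((u φ * v φ : ℂˣ) : ℂ)‖ = _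
  rw [Units.val_mul, norm_mul, Real.log_mul (norm_ne_zero_iff.2 (u φ).ne_zero)
    (norm_ne_zero_iff.2 (v φ).ne_zero)]
  rfl

theorem lg_one : lg (1 : (K →+* ℂ) → ℂˣ) = 0 := by
  funext φ
  show Real.log ‖((1 : ℂˣ) : ℂ)‖ = 0
  simp

theorem lg_inv (u : (K →+* ℂ) → ℂˣ) : lg (u⁻¹) = - lg u := by
  have h := lg_mul u u⁻¹
  rw [mul_inv_cancel, lg_one] at h
  exact (neg_eq_of_add_eq_zero_right h.symm).symm

theorem lg_cont : Continuous (lg : ((K →+* ℂ) → ℂˣ) → ((K →+* ℂ) → ℝ)) := by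
  apply continuous_pi
  intro φ
  have h1 : Continuous fun u : (K →+* ℂ) → ℂˣ => ‖(u φ : ℂ)‖ :=
    (Units.continuous_val.comp (continuous_apply φ)).norm
  exact h1.log fun u => norm_ne_zero_iff.2 (u φ).ne_zero

/-- the closed subgroup -/
def Hs : Subgroup ((K →+* ℂ) → ℂˣ) where
  carrier := {u | lg u ∈ Symm4.map (Psi D)}
  mul_mem' {u v} hu hv := by
    have hu' : lg u ∈ Symm4.map (Psi D) := hu
    have hv' : lg v ∈ Symm4.map (Psi D) := hv
    show lg (u * v) ∈ Symm4.map (Psi D)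
    rw [lg_mul]
    exact add_mem hu' hv'
  one_mem' := by
    show lg 1 ∈ Symm4.map (Psi D)
    rw [lg_one]
    exact zero_mem _
  inv_mem' {u} hu := by
    have hu' : lg u ∈ Symm4.map (Psi D) := hu
    show lg (u⁻¹) ∈ Symm4.map (Psi D)
    rw [lg_inv]
    exact neg_mem hu'

theorem Hs_closed : IsClosed ((Hs D : Subgroup _) : Set ((K →+* ℂ) → ℂˣ)) := by
  have h : IsClosed ((Symm4.map (Psi D) : Submodule ℝ ((K →+* ℂ) → ℝ)) : Set ((K →+* ℂ) → ℝ)) :=
    Submodule.closed_of_finiteDimensional _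
  exact h.preimage lg_cont

theorem log_g (φ : K →+* ℂ) (i j : Fin 4) : Real.log ‖φ (D.g i j)‖ =
    D.lam j (D.perm φ i.castSucc) - D.lam j (D.perm φ (Fin.last 4)) := by
  have h1 : φ (D.g i j) = (D.β (D.perm φ i.castSucc) + (nn j : ℂ)) /
      (D.β (D.perm φ (Fin.last 4)) + (nn j : ℂ)) := by
    unfold FieldData.g
    rw [map_div₀, map_add, map_add, D.perm_spec, D.perm_spec, map_intCast]
  have h2 : ∀ k : Fin 5, D.β (D.perm φ k) + (nn j : ℂ) ≠ 0 := by
    intro k h
    have h3 : φ (D.b k + (nn j : K)) = 0 := by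
      rw [map_add, D.perm_spec, map_intCast, h]
    exact D.ne_zero k j ((map_eq_zero φ).1 h3)
  rw [h1, norm_div, Real.log_div (norm_ne_zero_iff.2 (h2 _)) (norm_ne_zero_iff.2 (h2 _))]
  rfl

theorem gen_mem (i j : Fin 4) : emb K (D.gu i j * D.gu j i) ∈ Hs D := by
  show lg (emb K (D.gu i j * D.gu j i)) ∈ Symm4.map (Psi D)
  rw [Submodule.mem_map]
  refine ⟨Matrix.single i j 1 + Matrix.single j i 1, ?_, ?_⟩
  · show (Matrix.single i j (1 : ℝ) + Matrix.single j i 1).IsSymm
    unfold Matrix.IsSymm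
    rw [Matrix.transpose_add, Matrix.transpose_single, Matrix.transpose_single, add_comm]
  · funext φ
    show ev (D.mu _) (D.perm φ) = lg (emb K (D.gu i j * D.gu j i)) φ
    rw [map_mul, lg_mul, Pi.add_apply]
    have e1 : ∀ i j, lg (emb K (D.gu i j)) φ = Real.log ‖φ (D.g i j)‖ := fun i j => rfl
    rw [e1, e1, log_g, log_g, ev_mu]
    simp only [Matrix.add_apply, add_mul, Finset.sum_add_distrib]
    have e2 : ∀ (i j : Fin 4) (F : Fin 4 → Fin 4 → ℝ),
        ∑ a, ∑ b, (Matrix.single i j (1 : ℝ)) a b * F a b = F i j := by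
      intro i j F
      rw [Finset.sum_eq_single i]
      · rw [Finset.sum_eq_single j]
        · rw [Matrix.single_apply_same, one_mul]
        · intro b _ hb
          rw [Matrix.single_apply_of_ne _ _ _ _ _ (fun h => hb h.2.symm), zero_mul]
        · intro h; exact absurd (Finset.mem_univ _) h
      · intro a _ ha
        apply Finset.sum_eq_zero
        intro b _
        rw [Matrix.single_apply_of_ne _ _ _ _ _ (fun h => ha h.1.symm), zero_mul]
      · intro h; exact absurd (Finset.mem_univ _) h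
    rw [e2 i j (fun a b => D.lam b (D.perm φ a.castSucc) - D.lam b (D.perm φ (Fin.last 4))),
      e2 j i (fun a b => D.lam b (D.perm φ a.castSucc) - D.lam b (D.perm φ (Fin.last 4)))]

theorem t_SPAN : S_SPAN := by
  intro K _ _ D u hu
  have h1 : D.L.map (emb K) ≤ Hs D := by
    rw [Subgroup.map_le_iff_le_comap]
    unfold FieldData.L
    rw [Subgroup.closure_le]
    rintro _ ⟨⟨i, j⟩, rfl⟩
    exact gen_mem D i j
  have h2 : clos K D.L ≤ Hs D := Subgroup.topologicalClosure_minimal _ h1 (Hs_closed D)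
  have h3 : lg u ∈ Symm4.map (Psi D) := h2 hu
  obtain ⟨X, hX, hX2⟩ := Submodule.mem_map.1 h3
  refine ⟨X, hX, fun φ => ?_⟩
  exact (congrFun hX2 φ).symm

end

end Pool.Agent.W975.CLSPAN
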