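import Pool.Agent.W893.EV.Stm

/-!
# The number of orbits on the sets with `k` elements
-/

set_option autoImplicit false
set_option maxHeartbeats 400000

namespace Pool.Agent.W975.EVORD

open Finset Pool.Agent.W893.EV

theorem ORD_proof : Pool.Agent.W893.EV.ORD := by
  classical
  intro n k G
  set s : Finset (Finset (Fin n)) := Finset.powersetCard k Finset.univ with hs
  have hcard : s.card = n.choose k := by
    rw [hs, Finset.card_powersetCard, Finset.card_univ, Fintype.card_fin]
  have hset : {O | ∃ A : Finset (Fin n), A.card = k ∧ O = orb G A} =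
      ((s.image (orb G) : Finset (Set (Finset (Fin n)))) : Set (Set (Finset (Fin n)))) := by
    ext O
    rw [Finset.coe_image]
    constructor
    · rintro ⟨A, hA, rfl⟩
      exact ⟨A, Finset.mem_coe.2 (Finset.mem_powersetCard.2 ⟨Finset.subset_univ _, hA⟩), rfl⟩
    · rintro ⟨A, hA, rfl⟩
      exact ⟨A, (Finset.mem_powersetCard.1 (Finset.mem_coe.1 hA)).2, rfl⟩
  have horb : orbits G k = (s.image (orb G)).card := by
    unfold orbits
    rw [hset, Set.ncard_coe_finset]
  rw [← hcard, horb]
  apply Finset.card_le_mul_card_image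
  intro b hb
  obtain ⟨A, hA, rfl⟩ := Finset.mem_image.1 hb
  have hG : Fintype G := Fintype.ofFinite G
  have hsub : (s.filter fun a => orb G a = orb G A) ⊆
      (Finset.univ : Finset G).image (fun σ : G => A.map (σ : Equiv.Perm (Fin n)).toEmbedding) := by
    intro B hB
    rw [Finset.mem_filter] at hB
    have h1 : B ∈ orb G B := by
      refine ⟨1, G.one_mem, ?_⟩
      ext x
      rw [Finset.mem_map]
      constructor
      · intro hx
        exact ⟨x, hx, rfl⟩
      · rintro ⟨y, hy, rfl⟩
        exact hy
    rw [hB.2] at h1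
    obtain ⟨σ, hσ, h2⟩ := h1
    rw [Finset.mem_image]
    exact ⟨⟨σ, hσ⟩, Finset.mem_univ _, h2.symm⟩
  refine (Finset.card_le_card hsub).trans ?_
  refine Finset.card_image_le.trans ?_
  rw [Finset.card_univ, Nat.card_eq_fintype_card]

end Pool.Agent.W975.EVORD
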