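import Pool.Agent.W982.TA.Grid

/-!
# The set of the missing points
-/

set_option autoImplicit false
set_option maxHeartbeats 400000

namespace Pool.Agent.W982.TA

theorem mem_cellsOf_i1 (P : List ℕ) (x y : ℕ) : (x, y) ∈ cellsOf P ↔
    x < 64 ∧ y < 62 ∧ missP P ((x : ℤ), (y : ℤ)) = true := by
  unfold cellsOf
  rw [List.mem_flatMap]
  constructor
  · rintro ⟨y', hy', h⟩
    rw [List.mem_map] at h
    obtain ⟨x', hx', h⟩ := h
    rw [List.mem_filter, List.mem_range] at hx'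
    rw [List.mem_range] at hy'
    obtain ⟨rfl, rfl⟩ := Prod.mk.inj h
    exact ⟨hx'.1, hy', hx'.2⟩
  · rintro ⟨hx, hy, h⟩
    refine ⟨y, List.mem_range.2 hy, ?_⟩
    rw [List.mem_map]
    exact ⟨x, List.mem_filter.2 ⟨List.mem_range.2 hx, h⟩, rfl⟩

theorem i1 : TaskI1 := by
  intro _ φ q
  unfold Mset Mlist
  rw [List.mem_toFinset, List.mem_flatMap]
  constructor
  · rintro ⟨i, hi, h⟩
    rw [List.mem_flatMap] at h
    obtain ⟨j, hj, h⟩ := h
    rw [List.mem_map] at h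
    obtain ⟨⟨x, y⟩, hc, h⟩ := h
    obtain ⟨hx, hy, hm⟩ := (mem_cellsOf_i1 _ x y).1 hc
    refine ⟨i, List.mem_range.1 hi, j, List.mem_range.1 hj, x, hx, y, hy, hm, ?_⟩
    rw [← h]
    push_cast
    rfl
  · rintro ⟨i, hi, j, hj, x, hx, y, hy, hm, rfl⟩
    refine ⟨i, List.mem_range.2 hi, ?_⟩
    rw [List.mem_flatMap]
    refine ⟨j, List.mem_range.2 hj, ?_⟩
    rw [List.mem_map]
    refine ⟨(x, y), (mem_cellsOf_i1 _ x y).2 ⟨hx, hy, hm⟩, ?_⟩
    push_cast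
    rfl

end Pool.Agent.W982.TA
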